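import Pool.Agent.Helper69.ST.Goals
import Pool.Agent.Helper45.Stek.ET

/-! Packet PH of project ST (MP_438009_an): the inverse map, change of variables. (helper15) -/

set_option autoImplicit false

open MeasureTheory Set Complex Metric Filter
open scoped ContDiff Topology ENNReal

namespace Pool.Agent.Helper15.ST.PH

open Pool.Agent.Helper45.Stek Pool.Agent.Helper69.ST

theorem hdiff {p : ℕ} {β : ℕ → ℂ} (hp : 1 ≤ p)
    (hs : ∀ r : ℝ, 0 ≤ r → r < 1 → Summable (fun n : ℕ => ‖β n‖ * r ^ n)) :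
    DifferentiableOn ℂ (hfun p β) (ball 0 1) := by
  intro z hz
  rw [mem_ball_zero_iff] at hz
  obtain ⟨r, hr1, hr2⟩ := exists_between hz
  have hr0 : 0 ≤ r := (norm_nonneg z).trans hr1.le
  have h1 : DifferentiableOn ℂ (fun w : ℂ => ∑' n : ℕ, β n * w ^ (p * n)) (ball 0 r) := by
    refine differentiableOn_tsum_of_summable_norm (hs r hr0 hr2) ?_ isOpen_ball ?_
    · intro n
      exact ((differentiable_id.pow (p * n)).const_mul (β n)).differentiableOn
    · intro n w hw
      rw [mem_ball_zero_iff] at hw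
      rw [norm_mul, norm_pow]
      have h2 : ‖w‖ ^ (p * n) ≤ r ^ n := by
        calc ‖w‖ ^ (p * n) ≤ r ^ (p * n) := pow_le_pow_left₀ (norm_nonneg w) hw.le _
          _ ≤ r ^ n := pow_le_pow_of_le_one hr0 hr2.le (by nlinarith)
      exact mul_le_mul_of_nonneg_left h2 (norm_nonneg _)
  have h2 : DifferentiableAt ℂ (fun w : ℂ => ∑' n : ℕ, β n * w ^ (p * n)) z :=
    h1.differentiableAt (isOpen_ball.mem_nhds (by rwa [mem_ball_zero_iff]))
  exact h2.differentiableWithinAt

theorem t : S_PH := by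
  intro p Ω f φ β hp hΩ hC
  have hfd : DifferentiableOn ℂ f (ball 0 1) :=
    fun z hz => (hC.der z hz).differentiableAt.differentiableWithinAt
  have hinj : InjOn f (ball 0 1) := by
    intro z hz w hw h
    rw [← hC.inv z hz, ← hC.inv w hw, h]
  have hh := hdiff hp hC.sm
  have h1 : ∀ x ∈ Ω, φ x ∈ ball (0 : ℂ) 1 ∧ f (φ x) = x ∧
      HasDerivAt φ ((hfun p β (φ x) ^ 2)⁻¹) x := by
    intro x hx
    rw [← hC.im] at hx
    obtain ⟨z, hz, rfl⟩ := hx
    rw [hC.inv z hz]
    refine ⟨hz, rfl, ?_⟩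
    have ha : AnalyticAt ℂ f z := hfd.analyticAt (isOpen_ball.mem_nhds hz)
    have hsd : HasStrictDerivAt f (hfun p β z ^ 2) z := by
      have h2 := ha.hasStrictDerivAt
      rwa [(hC.der z hz).deriv] at h2
    have h3 : ∀ᶠ w in 𝓝 z, φ (f w) = w := by
      filter_upwards [isOpen_ball.mem_nhds hz] with w hw using hC.inv w hw
    exact (hsd.to_local_left_inverse (pow_ne_zero 2 (hC.nz z hz)) h3).hasDerivAt
  have hF : ∀ z ∈ ball (0 : ℂ) 1, HasFDerivWithinAt f (mulR (hfun p β z ^ 2)) (ball 0 1) z :=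
    fun z hz => ((hC.der z hz).hasFDerivAt.restrictScalars ℝ).hasFDerivWithinAt
  have hdet : ∀ z, |(mulR (hfun p β z ^ 2)).det| = ‖hfun p β z‖ ^ 4 := by
    intro z
    rw [det_mulR, norm_pow, abs_of_nonneg (by positivity)]
    ring
  refine ⟨h1, hinj, hh.continuousOn, hh, ?_, ?_, ?_⟩
  · intro F
    rw [← hC.im, integral_image_eq_integral_abs_det_fderiv_smul volume measurableSet_ball hF hinj]
    congr 1
    ext z
    rw [hdet]
  · intro F
    rw [← hC.im, integral_image_eq_integral_abs_det_fderiv_smul volume measurableSet_ball hF hinj]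
    congr 1
    ext z
    rw [hdet, smul_eq_mul]
  · intro V τ₀ hV δ hδ
    have hsub : closedBall (0 : ℂ) (1 - δ) ⊆ ball 0 1 := by
      intro z hz
      rw [mem_closedBall_zero_iff] at hz
      rw [mem_ball_zero_iff]
      linarith
    have hK : IsCompact (f '' closedBall 0 (1 - δ)) :=
      (isCompact_closedBall 0 (1 - δ)).image_of_continuousOn (hfd.continuousOn.mono hsub)
    have hKΩ : f '' closedBall 0 (1 - δ) ⊆ Ω := by
      rw [← hC.im]
      exact image_mono hsub
    obtain ⟨ε, hε, hεΩ⟩ := hK.exists_thickening_subset_open hΩ hKΩ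
    obtain ⟨M, hM⟩ := hV.cp.exists_bound_of_continuous hV.sm.continuous
    have hM0 : 0 ≤ M := (norm_nonneg _).trans (hM 0)
    refine ⟨min τ₀ (ε / (M + 1)), lt_min hV.pos (by positivity), min_le_left _ _, ?_⟩
    intro τ hτ0 hτ x hx
    have hτ1 : τ < τ₀ := lt_of_lt_of_le hτ (min_le_left _ _)
    have hτ2 : τ < ε / (M + 1) := lt_of_lt_of_le hτ (min_le_right _ _)
    have hy := hV.shift τ hτ0 hτ1 x (frontier_subset_closure hx)
    obtain ⟨h2, h3, -⟩ := h1 _ hy
    rw [mem_ball_zero_iff] at h2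
    refine ⟨?_, h2⟩
    by_contra hcon
    push Not at hcon
    have h4 : x + τ * V x ∈ f '' closedBall 0 (1 - δ) :=
      ⟨φ (x + τ * V x), by rwa [mem_closedBall_zero_iff], h3⟩
    have h5 : dist x (x + τ * V x) < ε := by
      rw [dist_eq_norm, sub_add_cancel_left, norm_neg, norm_mul, norm_real, Real.norm_eq_abs,
        abs_of_pos hτ0]
      have h6 : τ * (M + 1) < ε := by rwa [lt_div_iff₀ (by positivity)] at hτ2
      have h7 := mul_le_mul_of_nonneg_left (hM x) hτ0.le
      nlinarith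
    have h6 : x ∈ Ω := hεΩ (mem_thickening_iff.2 ⟨_, h4, h5⟩)
    rw [hΩ.frontier_eq] at hx
    exact hx.2 h6

end Pool.Agent.Helper15.ST.PH
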